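import Mathlib
import Pool.Agent.TH497.PW.IntFlow
import Pool.Agent.TH362.FP.Pos
import Pool.Agent.Y335.FL.Main
import Pool.Agent.L0h99.BC.Frac

set_option autoImplicit false

/-!
# Nowhere-zero 5-flows in graphs covered by few balls (MP_974d84_co)

The ball of radius `r` around a vertex or an edge is the set of the vertices at distance at most `r`
from the vertex or from one of the ends of the edge.  Its volume is the number `3 * 2 ^ r - 2` or
`4 * 2 ^ r - 2` of the vertices of such a ball in the infinite cubic tree: `1, 4, 10, 22, 46, 94` for
a vertex and `2, 6, 14, 30, 62` for an edge.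

Let `G` be a bridgeless multigraph and let a family of balls around vertices and edges have weights
`w_j ≥ 0` such that for every vertex of degree at least three the weights of the balls which contain
it add up to at least one.  If the weighted sum of the volumes is less than `126` then `G` has a
nowhere-zero 5-flow, and the characteristic polynomial of its bond matroid is positive at all
integers `q ≥ 5`.  The degrees, the order, the connectivity and the genus are arbitrary.

The starting file `CoveredByBalls` of MP_c8786f_co has balls around vertices only and the additional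
condition that the weights of the centres, multiplied by `2 ^ r - 1`, add up to at most `31`.  New
cases: all vertices (of degree at least three) are at distance at most one (two, three, four) from
one of `20` (`8`, `4`, `2`) edges; or at distance at most two (three) from one of `12` (`5`)
vertices; or every ball of radius `r` around a vertex contains more than the proportion
`(3 * 2 ^ r - 2) / 126` of all vertices (`bigBalls`; for `r = 5` this is `94 / 126`, in the starting
file `1`).

For Tutte's 12-cage, which has girth twelve and `126` vertices, no such covering exists.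

Proof.  The class is closed under contractions.  Let `G` be a counterexample with as few edges as
possible.  Circuits with at most eleven edges can be contracted (library `Y335/FL`), and so can one
of two edges which form a cut; hence (library `Y358/IN`) `G` has girth at least twelve and all
degrees are at least three, apart from isolated vertices.  Let `z` be a vertex, let `e_i` be the
number of edges between the vertices at distance `i` and `i + 1`.  As the girth is at least twelve,
the ball of radius five is a tree, `e_{i+1} ≥ 2 e_i` for `i ≤ 4`, the sum of the degrees over the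
ball of radius `r ≤ 5` is `e_r + 2 (e_0 + ... + e_{r-1})`, and the sum of all degrees is at least
`2 (e_0 + ... + e_5)`.  So the ball of radius `r` has at most the proportion `(3 * 2 ^ r - 2) / 126`
of the sum of the degrees: a ball with many vertices of large degree forces even more outside.  In
the same way the ball of radius `r ≤ 4` around an edge has at most the proportion
`(4 * 2 ^ r - 2) / 126`.  Hence a fractional covering of `G` has total volume at least `126`.
-/

namespace Pool.Agent.Results.MP_974d84_co.BallCoverings

open Pool.Agent.TH497.PW Pool.Agent.L0h99.BC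

variable {V E ι : Type}

/-- The edges with exactly one end in `X`. -/
def boundary [DecidableEq V] [Fintype E] (src dst : E → V) (X : Finset V) : Finset E :=
  Finset.univ.filter (fun e => ¬ (src e ∈ X ↔ dst e ∈ X))

/-- Kirchhoff's law. -/
def IsFlow [DecidableEq V] [Fintype E] (src dst : E → V) (f : E → ℤ) : Prop :=
  ∀ v : V, ∑ e ∈ Finset.univ.filter (fun e => src e = v), f e
    = ∑ e ∈ Finset.univ.filter (fun e => dst e = v), f e

/-- The degree of `v`; loops are not counted. -/
def properDegree [DecidableEq V] [Fintype E] (src dst : E → V) (v : V) : ℕ :=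
  (Finset.univ.filter (fun e => src e ≠ dst e ∧ (src e = v ∨ dst e = v))).card

/-- There is an edge between `x` and `y`, and `x ≠ y`. -/
def Adjacent (src dst : E → V) (x y : V) : Prop :=
  x ≠ y ∧ ∃ e, (src e = x ∧ dst e = y) ∨ (src e = y ∧ dst e = x)

/-- The distance of `x` and `y` in the graph is at most `k`. -/
def DistLE (src dst : E → V) (k : ℕ) (x y : V) : Prop :=
  ∃ p : ℕ → V, p 0 = x ∧ p k = y ∧ ∀ i < k, p i = p (i + 1) ∨ Adjacent src dst (p i) (p (i + 1))

/-- The number of vertices of the ball of radius `r` around a vertex (if `x = y`) or around an edge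
(if `x ≠ y`) in the infinite cubic tree. -/
def volume [DecidableEq V] (x y : V) (r : ℕ) : ℕ :=
  if x = y then 3 * 2 ^ r - 2 else 4 * 2 ^ r - 2

/-- The number of the components of the graph with the vertices `V` and the edges `A`. -/
noncomputable def components (src dst : E → V) (A : Finset E) : ℕ :=
  Nat.card (SimpleGraph.fromRel
    (fun u v : V => ∃ e ∈ A, src e = u ∧ dst e = v)).ConnectedComponent

/-- The rank of `A` in the cycle matroid of the graph. -/
noncomputable def cycleRank [Fintype V] (src dst : E → V) (A : Finset E) : ℕ :=
  Fintype.card V - components src dst A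

/-- The rank of `A` in the bond matroid of the graph (the dual of the cycle matroid). -/
noncomputable def bondRank [Fintype V] [Fintype E] [DecidableEq E] (src dst : E → V)
    (A : Finset E) : ℕ :=
  A.card + cycleRank src dst Aᶜ - cycleRank src dst Finset.univ

/-- The characteristic polynomial of the bond matroid at the integer `x`. -/
noncomputable def bondCharPoly [Fintype V] [Fintype E] [DecidableEq E] (src dst : E → V)
    (x : ℤ) : ℤ :=
  ∑ A : Finset E, (-1) ^ A.card * x ^ (bondRank src dst Finset.univ - bondRank src dst A)

theorem isFlow_iff [DecidableEq V] [Fintype E] (src dst : E → V) (f : E → ℤ) :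
    IsFlow src dst f ↔
      ∀ v, ∑ e, f e * ((if src e = v then 1 else 0) - (if dst e = v then 1 else 0)) = 0 := by
  unfold IsFlow
  refine forall_congr' fun v => ?_
  rw [Finset.sum_filter, Finset.sum_filter, ← sub_eq_zero, ← Finset.sum_sub_distrib]
  have : ∀ e, (if src e = v then f e else 0) - (if dst e = v then f e else 0)
      = f e * ((if src e = v then 1 else 0) - (if dst e = v then 1 else 0)) := by
    intro e
    by_cases h1 : src e = v <;> by_cases h2 : dst e = v <;> simp [h1, h2]
  rw [Finset.sum_congr rfl (fun e _ => this e)]

theorem nzf [Fintype V] [DecidableEq V] [Fintype E] [DecidableEq E] (src dst : E → V)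
    (h : Pool.Agent.TH676.Z.FlowOn src dst ∅ ∅) : NZF src dst := by
  obtain ⟨f, h1, _, h3⟩ := h
  refine ⟨f, fun e => h3 e (Finset.notMem_empty _) (Finset.notMem_empty _), fun x => ?_⟩
  rw [← h1 x]
  unfold Pool.Agent.TH676.Z.bd
  refine Finset.sum_congr rfl fun e _ => ?_
  unfold ic
  by_cases h4 : src e = x <;> by_cases h5 : dst e = x <;> simp [h4, h5]

theorem charPoly_pos [Fintype V] [DecidableEq V] [Fintype E] [DecidableEq E] (src dst : E → V)
    (f : E → ℤ) (h1 : IsFlow src dst f) (h2 : ∀ e, 1 ≤ |f e| ∧ |f e| ≤ 4) (q : ℕ) (hq : 5 ≤ q) :
    0 < bondCharPoly src dst q :=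
  Pool.Agent.TH362.FP.chr_pos src dst f h2 h1 q hq

theorem finish [Fintype V] [DecidableEq V] [Fintype E] [DecidableEq E] (src dst : E → V)
    (hfl : Pool.Agent.TH676.Z.FlowOn src dst ∅ ∅) :
    (∃ f : E → ℤ, IsFlow src dst f ∧ ∀ e, 1 ≤ |f e| ∧ |f e| ≤ 4) ∧
      ∀ q : ℕ, 5 ≤ q → 0 < bondCharPoly src dst q := by
  obtain ⟨F, hF, hF0⟩ := int_flow src dst (nzf src dst hfl)
  have hF1 := (isFlow_iff src dst F).mpr hF0
  exact ⟨⟨F, hF1, hF⟩, fun q hq => charPoly_pos src dst F hF1 hF q hq⟩

open Classical in
/-- **Bridgeless graphs covered by balls of total volume less than 126.**  Let `G` be a bridgeless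
multigraph and let `(x j, y j)`, `r j`, `w j` be finitely many centres (vertices or edges), radii and
nonnegative weights such that for every vertex of degree at least three the weights of the balls
which contain it add up to at least one, and the sum of the weighted volumes is less than `126`.
Then `G` has a nowhere-zero 5-flow, and the characteristic polynomial of its bond matroid is positive
at all `q ≥ 5`. -/
theorem result :
    ∀ (V E ι : Type) [Fintype V] [DecidableEq V] [Fintype E] [DecidableEq E] [Fintype ι]
      (src dst : E → V) (x y : ι → V) (r : ι → ℕ) (w : ι → ℝ),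
      (∀ j, x j = y j ∨ Adjacent src dst (x j) (y j)) →
      (∀ j, 0 ≤ w j) →
      (∀ v, 3 ≤ properDegree src dst v →
        1 ≤ ∑ j, if DistLE src dst (r j) v (x j) ∨ DistLE src dst (r j) v (y j) then w j else 0) →
      ∑ j, w j * (volume (x j) (y j) (r j) : ℝ) < 126 →
      (∀ Y : Finset V, (boundary src dst Y).card ≠ 1) →
      (∃ f : E → ℤ, IsFlow src dst f ∧ ∀ e, 1 ≤ |f e| ∧ |f e| ≤ 4) ∧
      ∀ q : ℕ, 5 ≤ q → 0 < bondCharPoly src dst q := by
  intro V E ι _ _ _ _ _ src dst x y r w hxy hw hcov hvol hb
  have hcl : CovW ι w src dst := ⟨x, y, r, hxy, hcov, hvol⟩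
  exact finish src dst (flow_of_CovW Pool.Agent.Y335.FL.contract_all w hw hcl
    (fun Y _ => by rw [Finset.sdiff_empty]; exact hb Y))

/-- The case of a covering: every vertex of degree at least three is in one of the balls, and the
volumes add up to at most `125`. -/
theorem covering (V E ι : Type) [Fintype V] [DecidableEq V] [Fintype E] [DecidableEq E] [Fintype ι]
    (src dst : E → V) (x y : ι → V) (r : ι → ℕ)
    (hxy : ∀ j, x j = y j ∨ Adjacent src dst (x j) (y j))
    (hcov : ∀ v, 3 ≤ properDegree src dst v →
      ∃ j, DistLE src dst (r j) v (x j) ∨ DistLE src dst (r j) v (y j))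
    (hvol : ∑ j, volume (x j) (y j) (r j) ≤ 125)
    (hb : ∀ Y : Finset V, (boundary src dst Y).card ≠ 1) :
    ∃ f : E → ℤ, IsFlow src dst f ∧ ∀ e, 1 ≤ |f e| ∧ |f e| ≤ 4 := by
  classical
  refine (result V E ι src dst x y r (fun _ => 1) hxy (fun _ => zero_le_one) (fun v hv => ?_) ?_
    hb).1
  · obtain ⟨j, hj⟩ := hcov v hv
    calc (1 : ℝ) = if DistLE src dst (r j) v (x j) ∨ DistLE src dst (r j) v (y j) then 1 else 0 := by
          rw [if_pos hj]
      _ ≤ _ := Finset.single_le_sum (f := fun j => if DistLE src dst (r j) v (x j) ∨
          DistLE src dst (r j) v (y j) then (1 : ℝ) else 0)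
          (fun i _ => by split_ifs <;> norm_num) (Finset.mem_univ j)
  · simp only [one_mul]
    have h1 : ((∑ j, volume (x j) (y j) (r j) : ℕ) : ℝ) ≤ 125 := by exact_mod_cast hvol
    rw [Nat.cast_sum] at h1
    linarith

open Classical in
/-- For some `r`, every ball of radius `r` around a vertex contains more than the proportion
`(3 * 2 ^ r - 2) / 126` of all vertices. -/
theorem bigBalls (V E : Type) [Fintype V] [DecidableEq V] [Fintype E] [DecidableEq E]
    (src dst : E → V) (r : ℕ)
    (h : ∀ v, (3 * 2 ^ r - 2) * (Fintype.card V : ℝ) <
      126 * (Finset.univ.filter fun u => DistLE src dst r v u).card)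
    (hb : ∀ Y : Finset V, (boundary src dst Y).card ≠ 1) :
    ∃ f : E → ℤ, IsFlow src dst f ∧ ∀ e, 1 ≤ |f e| ∧ |f e| ≤ 4 := by
  rcases isEmpty_or_nonempty V with hV | hV
  · exact ⟨fun e => hV.elim (src e), fun v => hV.elim v, fun e => hV.elim (src e)⟩
  obtain ⟨v0⟩ := id hV
  -- the smallest number of vertices of a ball
  obtain ⟨v1, -, hmin⟩ := Finset.exists_min_image (Finset.univ : Finset V)
    (fun v => (Finset.univ.filter fun u => DistLE src dst r v u).card) ⟨v0, Finset.mem_univ _⟩
  set m : ℕ := (Finset.univ.filter fun u => DistLE src dst r v1 u).card with hm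
  have hn : (0 : ℝ) < Fintype.card V := by exact_mod_cast Fintype.card_pos
  have hp : (1 : ℝ) ≤ 2 ^ r := one_le_pow₀ (by norm_num)
  have hm1 := h v1
  have hm0 : (0 : ℝ) < m := by
    have : (0 : ℝ) < (3 * 2 ^ r - 2) * (Fintype.card V : ℝ) := mul_pos (by linarith) hn
    rw [← hm] at hm1
    linarith
  refine (result V E V src dst (fun j => j) (fun j => j) (fun _ => r) (fun _ => 1 / m)
    (fun _ => Or.inl rfl) (fun _ => by positivity) (fun v _ => ?_) ?_ hb).1
  · rw [← Finset.sum_filter, Finset.sum_const, nsmul_eq_mul]
    have h1 : (m : ℝ) ≤ (Finset.univ.filter fun j => DistLE src dst r v j ∨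
        DistLE src dst r v j).card := by
      simp only [or_self]
      exact_mod_cast hmin v (Finset.mem_univ v)
    rw [mul_one_div]
    exact (one_le_div hm0).2 h1
  · simp only [volume, if_true, Finset.sum_const, Finset.card_univ, nsmul_eq_mul]
    have h2 : ((3 * 2 ^ r - 2 : ℕ) : ℝ) = 3 * 2 ^ r - 2 := by
      have h3 : 2 ≤ 3 * 2 ^ r := by
        have := Nat.one_le_two_pow (n := r)
        omega
      push_cast [Nat.cast_sub h3]
      ring
    rw [h2]
    have h4 : (Fintype.card V : ℝ) * (1 / m * (3 * 2 ^ r - 2)) =
        (3 * 2 ^ r - 2) * (Fintype.card V : ℝ) / m := by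
      field_simp
    rw [h4, div_lt_iff₀ hm0]
    exact hm1

end Pool.Agent.Results.MP_974d84_co.BallCoverings
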