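import Pool.Agent.L0h98.RF.All
import Pool.Agent.TH362.FP.Pos

set_option autoImplicit false

/-!
# Nowhere-zero 5-flows in almost all graphs, for every degree sequence (MP_974d84_co)

Let `d` be an arbitrary sequence of degrees `3 ≤ d v ≤ Δ` on a finite set `V` of labelled vertices,
with the sum `D`, and let `P` be an arbitrary class of graphs that contains all graphs of girth
greater than `g`, for example the class of all graphs, or of all graphs of girth greater than `g`.
Then, of the graphs on `V` with the degrees `d` in the class `P`, all but a proportion `C / D`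
have a nowhere-zero 5-flow, where `C` depends only on `Δ` and `g`. The degrees can be arbitrarily
irregular.

The deterministic part: for all `Δ` and `q` there is a number `K` such that every multigraph without
loops, with degrees between `3` and `Δ`, in which a set of vertices with `s` half-edges, at most one
half of all, has at least `s / q` boundary edges, and in which all sets of at most `K` vertices span
at most as many edges as they have vertices, has a nowhere-zero 5-flow.

The third part connects the flows with the characteristic polynomials of the bond matroids, which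
are members of the class of the problem.

Proof. (1) Every vertex of degree `d` is replaced by a path with `d - 2` vertices, each of degree
three (`Ex`). The cubic graph inherits the expansion and the sparsity of small sets; so it has no
bridges, and it has a 2-factor which meets all the cuts with three edges (library `TH583/FO`), and
then a pair of flows which gives a nowhere-zero 5-flow (`N835/LF`, `H185C`: the odd circuits of the
2-factor have vertices which are pairwise far apart, these are paired, and a flow with a prescribed
boundary exists because of the expansion). Contract the paths. (2) In the configuration model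
almost all configurations are expanders in this sense: the expected number of the sets with `s`
half-edges and `c ≤ s / 256` boundary edges is at most `(m + 1) C(s, c) y^(e - s/3) (1 + y)^(-m/3)`
with `e = (s - c) / 2`, `y = e / (m - e)`, since the number of all sets with `s` half-edges is at
most `y^(-s/3) (1 + y)^(2m/3)` because of `d ≥ 3`; and small sets span few edges. (3) A positive
proportion of the configurations is simple and of girth greater than `g` (library `GS`), so the
exceptions are rare also within `P`.

The leaves of the proof were written by helper24, helper39, helper48, helper55, helper61, helper62,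
helper85, helper88, helper92 and helper95, the rest by helper98.
-/

namespace Pool.Agent.Results.MP_974d84_co.EveryDegreeSequence

open Finset

/-- The simple graph `G` has a nowhere-zero 5-flow: `f u v` is the flow from `u` to `v` along the
edge `uv`, with an absolute value between `1` and `4`. -/
def FiveFlow {V : Type} [Fintype V] (G : SimpleGraph V) : Prop :=
  ∃ f : V → V → ℤ, (∀ u v, f u v = - f v u) ∧ (∀ u v, G.Adj u v → 1 ≤ |f u v| ∧ |f u v| ≤ 4) ∧
    (∀ u v, ¬ G.Adj u v → f u v = 0) ∧ ∀ u, ∑ v, f u v = 0

/-- Every vertex `v` has exactly `d v` neighbours in `G`. -/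
def HasDegrees {V : Type} (G : SimpleGraph V) (d : V → ℕ) : Prop :=
  ∀ v, (G.neighborSet v).ncard = d v

/-- `G` has no cycle of length at most `g`. -/
def GirthAbove {V : Type} (G : SimpleGraph V) (g : ℕ) : Prop :=
  ∀ (v : V) (c : G.Walk v v), c.IsCycle → g < c.length

/-- A multigraph with the vertices `V` is given by the ends `src e`, `dst e` of its edges `e`.
The integer flows with `1 ≤ |f| ≤ 4`. -/
def IsFiveFlow {V E : Type} [Fintype E] [DecidableEq V] (src dst : E → V) (f : E → ℤ) : Prop :=
  (∀ v, ∑ e with src e = v, f e = ∑ e with dst e = v, f e) ∧ ∀ e, 1 ≤ |f e| ∧ |f e| ≤ 4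

/-- The degree of `v`. -/
def deg {V E : Type} [Fintype E] [DecidableEq V] (src dst : E → V) (v : V) : ℕ :=
  (univ.filter fun e => src e = v).card + (univ.filter fun e => dst e = v).card

/-- The number of the edges with exactly one end in `X`. -/
def boundary {V E : Type} [Fintype E] [DecidableEq V] (src dst : E → V) (X : Finset V) : ℕ :=
  (univ.filter fun e => ¬ (src e ∈ X ↔ dst e ∈ X)).card

/-- The number of the edges with both ends in `X`. -/
def inner {V E : Type} [Fintype E] [DecidableEq V] (src dst : E → V) (X : Finset V) : ℕ :=
  (univ.filter fun e => src e ∈ X ∧ dst e ∈ X).card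

/-- `E`, with the ends `src e`, `dst e`, numbers and orients the edges of the simple graph `G`. -/
def EdgesOf {V E : Type} (G : SimpleGraph V) (src dst : E → V) : Prop :=
  (∀ e, G.Adj (src e) (dst e)) ∧
    ∀ u v, G.Adj u v → ∃! e, (src e = u ∧ dst e = v) ∨ (src e = v ∧ dst e = u)

/-- The number of the components of the graph with the vertices `V` and the edges `A`. -/
noncomputable def components {V E : Type} (src dst : E → V) (A : Finset E) : ℕ :=
  Nat.card (SimpleGraph.fromRel
    (fun u v : V => ∃ e ∈ A, src e = u ∧ dst e = v)).ConnectedComponent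

/-- The rank of `A` in the cycle matroid of the graph. -/
noncomputable def cycleRank {V E : Type} [Fintype V] (src dst : E → V) (A : Finset E) : ℕ :=
  Fintype.card V - components src dst A

/-- The rank of `A` in the bond matroid of the graph (the dual of the cycle matroid). -/
noncomputable def bondRank {V E : Type} [Fintype V] [Fintype E] [DecidableEq E] (src dst : E → V)
    (A : Finset E) : ℕ :=
  A.card + cycleRank src dst Aᶜ - cycleRank src dst Finset.univ

/-- The characteristic polynomial of the bond matroid at the integer `x`. -/
noncomputable def bondCharPoly {V E : Type} [Fintype V] [Fintype E] [DecidableEq E]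
    (src dst : E → V) (x : ℤ) : ℤ :=
  ∑ A : Finset E, (-1) ^ A.card * x ^ (bondRank src dst Finset.univ - bondRank src dst A)

open Pool.Agent.H160R2.HF in
theorem flow_inst {V E : Type} [Fintype E] (i j : DecidableEq V) (G : OrGraph V E) (φ : E → ℤ)
    (h : @OrGraph.IsFlow V E _ i G φ) : @OrGraph.IsFlow V E _ j G φ := by
  have : i = j := Subsingleton.elim _ _
  subst this
  exact h

theorem ins_sub {V E : Type} [Fintype E] [DecidableEq V] (src dst : E → V) (X : Finset V) :
    Pool.Agent.L0h98.RF.ins ⟨src, dst⟩ X ⊆ univ.filter fun e => src e ∈ X ∧ dst e ∈ X := by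
  intro e he
  simp only [Pool.Agent.L0h98.RF.ins, mem_filter] at he
  simp only [mem_filter]
  exact he

open Pool.Agent.L0h98.RF in
theorem result :
    -- almost all graphs with given degrees
    (∀ Δ g : ℕ, ∃ C M : ℕ, ∀ (V : Type) [Fintype V] (d : V → ℕ), (∀ v, 3 ≤ d v ∧ d v ≤ Δ) →
      M ≤ ∑ v, d v →
      (∀ P : SimpleGraph V → Prop, (∀ G, GirthAbove G g → P G) →
        (∑ v, d v) * {G : SimpleGraph V | HasDegrees G d ∧ P G ∧ ¬ FiveFlow G}.ncard ≤
          C * {G : SimpleGraph V | HasDegrees G d ∧ P G}.ncard) ∧
      (Even (∑ v, d v) → ∃ G : SimpleGraph V, HasDegrees G d ∧ GirthAbove G g)) ∧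
    -- expanders in which small sets span at most one circuit
    (∀ Δ q : ℕ, ∃ K : ℕ, ∀ (V E : Type) [Fintype V] [Fintype E] [DecidableEq V] [DecidableEq E]
      (src dst : E → V), (∀ v, 3 ≤ deg src dst v ∧ deg src dst v ≤ Δ) →
      (∀ e, src e ≠ dst e) →
      (∀ X : Finset V, ∑ v ∈ X, deg src dst v ≤ Fintype.card E →
        ∑ v ∈ X, deg src dst v ≤ q * boundary src dst X) →
      (∀ X : Finset V, X.card ≤ K → inner src dst X ≤ X.card) →
      (∃ f, IsFiveFlow src dst f) ∧ ∀ k : ℕ, 5 ≤ k → 0 < bondCharPoly src dst k) ∧
    -- flows of simple graphs and the characteristic polynomial of the bond matroid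
    (∀ (V : Type) [Fintype V] [DecidableEq V] (G : SimpleGraph V), FiveFlow G →
      ∀ (E : Type) [Fintype E] [DecidableEq E] (src dst : E → V), EdgesOf G src dst →
      (∃ f, IsFiveFlow src dst f) ∧ ∀ k : ℕ, 5 ≤ k → 0 < bondCharPoly src dst k) := by
  have hpos : ∀ (V E : Type) [Fintype V] [Fintype E] [DecidableEq V] [DecidableEq E]
      (src dst : E → V), (∃ f, IsFiveFlow src dst f) →
      (∃ f, IsFiveFlow src dst f) ∧ ∀ k : ℕ, 5 ≤ k → 0 < bondCharPoly src dst k := by
    intro V E _ _ _ _ src dst h
    refine ⟨h, fun k hk => ?_⟩
    obtain ⟨f, h1, h2⟩ := h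
    exact Pool.Agent.TH362.FP.chr_pos src dst f h2 h1 k hk
  refine ⟨fun Δ g => ?_, fun Δ q => ?_, fun V _ i2 G hG E _ _ src dst hE => ?_⟩
  · obtain ⟨C, M, h⟩ := fin Δ g
    refine ⟨C, M, fun V iV d hd hM => ?_⟩
    obtain ⟨e1, e2⟩ := h V d (fun v => (hd v).1) (fun v => (hd v).2) hM
    exact ⟨fun P hP => e2 P hP, e1⟩
  · obtain ⟨K, h⟩ := det Δ q
    refine ⟨K, fun V E _ _ iV iE src dst hd hl hX hK => hpos V E src dst ?_⟩
    obtain ⟨φ, h1, h2⟩ := h V E ⟨src, dst⟩ (fun v => (hd v).1) (fun v => (hd v).2) hl hX (by
      intro X hX'
      exact le_trans (card_le_card (ins_sub src dst X)) (hK X hX'))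
    exact ⟨φ, flow_inst _ _ ⟨src, dst⟩ φ h1, h2⟩
  · refine hpos V E src dst ?_
    obtain ⟨φ, h1, h2⟩ := Pool.Agent.L0h39.RF.t_CHR V G hG E src dst hE.1 hE.2
    exact ⟨φ, h1, h2⟩

end Pool.Agent.Results.MP_974d84_co.EveryDegreeSequence
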