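import Mathlib
import Pool.Agent.TH497.PW.IntFlow
import Pool.Agent.TH362.FP.Pos
import Pool.Agent.Y335.FL.Main
import Pool.Agent.L0h99.MN.Mad

set_option autoImplicit false

/-!
# Nowhere-zero 5-flows: graphs without `K_6` minor (MP_974d84_co)

Let `G` be a bridgeless multigraph such that every simple minor `H` of `G` which has a `K_6` minor
has fewer than `4 |V(H)|` edges.  Then `G` has a nowhere-zero 5-flow, and the characteristic
polynomial of its bond matroid is positive at all integers `q ≥ 5`.  In particular this holds for
all bridgeless graphs without `K_6` minor (`noK6`), for example for all linklessly embeddable graphs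
(apex graphs are already in the starting files).

Proof.  By Mader's theorem (a simple graph with `n ≥ 4` vertices and at least `4 n - 9` edges has a
`K_6` minor; proved in the helper files) all simple minors `H` of `G` have fewer than `4 |V(H)|`
edges.  This class is closed under contractions.  Let `G` be a counterexample with as few edges as
possible; it has girth at least twelve and all degrees are at least three (starting files).  Take a
maximal set of edges `e` such that the balls `B(e)` of radius one around them are disjoint; at least
eight edges leave such a ball.  The other vertices are light (they have a neighbour in a ball) or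
heavy; heavy vertices are pairwise non-adjacent.  Some of the light and heavy vertices are put
together to trees `T` of radius at most two with at least six vertices, some heavy vertices are
deleted, and the remaining light vertices are added to adjacent balls.  This is done such that the
average number of the edges which leave a ball or a tree, with a correction for the deleted vertices
and for pairs of parallel edges (only two edges between light vertices can become parallel, because
the girth is at least twelve), is at least eight.  So contracting the balls and the trees gives a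
simple minor with `k > 0` vertices and at least `4 k` edges.
-/

namespace Pool.Agent.Results.MP_974d84_co.SparseMinors

open Pool.Agent.TH497.PW

variable {V E : Type}

/-- The edges with exactly one end in `X`. -/
def boundary [DecidableEq V] [Fintype E] (src dst : E → V) (X : Finset V) : Finset E :=
  Finset.univ.filter (fun e => ¬ (src e ∈ X ↔ dst e ∈ X))

/-- Kirchhoff's law. -/
def IsFlow [DecidableEq V] [Fintype E] (src dst : E → V) (f : E → ℤ) : Prop :=
  ∀ v : V, ∑ e ∈ Finset.univ.filter (fun e => src e = v), f e
    = ∑ e ∈ Finset.univ.filter (fun e => dst e = v), f e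

/-- Some edge has one end in `A` and the other end in `B`. -/
def Joined (src dst : E → V) (A B : Finset V) : Prop :=
  ∃ e, (src e ∈ A ∧ dst e ∈ B) ∨ (src e ∈ B ∧ dst e ∈ A)

/-- `A` is not empty and induces a connected subgraph: for every division of `A` into two nonempty
sets some edge has one end in each. -/
def Connected [DecidableEq V] (src dst : E → V) (A : Finset V) : Prop :=
  A.Nonempty ∧ ∀ X ⊆ A, X.Nonempty → X ≠ A → Joined src dst X (A \ X)

/-- The simple graph obtained from the disjoint sets `B 0, ..., B (k - 1)` by contracting each of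
them to one vertex (and deleting the other vertices, the loops and the parallel edges). -/
def minorGraph (src dst : E → V) {k : ℕ} (B : Fin k → Finset V) : SimpleGraph (Fin k) where
  Adj i j := i ≠ j ∧ Joined src dst (B i) (B j)
  symm := ⟨fun _ _ h => ⟨h.1.symm, by
    obtain ⟨e, he | he⟩ := h.2
    · exact ⟨e, Or.inr he⟩
    · exact ⟨e, Or.inl he⟩⟩⟩
  loopless := ⟨fun _ h => h.1 rfl⟩

/-- The simple graph `H` has a `K_6` minor: six disjoint connected nonempty sets of vertices such
that any two of them are joined by an edge. -/
def HasK6Minor {k : ℕ} (H : SimpleGraph (Fin k)) : Prop :=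
  ∃ C : Fin 6 → Finset (Fin k), (∀ i j, i ≠ j → Disjoint (C i) (C j)) ∧
    (∀ i, (C i).Nonempty ∧ ∀ X ⊆ C i, X.Nonempty → X ≠ C i →
      ∃ a ∈ X, ∃ b ∈ C i \ X, H.Adj a b) ∧
    ∀ i j, i ≠ j → ∃ a ∈ C i, ∃ b ∈ C j, H.Adj a b

/-- The number of the components of the graph with the vertices `V` and the edges `A`. -/
noncomputable def components (src dst : E → V) (A : Finset E) : ℕ :=
  Nat.card (SimpleGraph.fromRel
    (fun u v : V => ∃ e ∈ A, src e = u ∧ dst e = v)).ConnectedComponent

/-- The rank of `A` in the cycle matroid of the graph. -/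
noncomputable def cycleRank [Fintype V] (src dst : E → V) (A : Finset E) : ℕ :=
  Fintype.card V - components src dst A

/-- The rank of `A` in the bond matroid of the graph (the dual of the cycle matroid). -/
noncomputable def bondRank [Fintype V] [Fintype E] [DecidableEq E] (src dst : E → V)
    (A : Finset E) : ℕ :=
  A.card + cycleRank src dst Aᶜ - cycleRank src dst Finset.univ

/-- The characteristic polynomial of the bond matroid at the integer `x`. -/
noncomputable def bondCharPoly [Fintype V] [Fintype E] [DecidableEq E] (src dst : E → V)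
    (x : ℤ) : ℤ :=
  ∑ A : Finset E, (-1) ^ A.card * x ^ (bondRank src dst Finset.univ - bondRank src dst A)

theorem isFlow_iff [DecidableEq V] [Fintype E] (src dst : E → V) (f : E → ℤ) :
    IsFlow src dst f ↔
      ∀ v, ∑ e, f e * ((if src e = v then 1 else 0) - (if dst e = v then 1 else 0)) = 0 := by
  unfold IsFlow
  refine forall_congr' fun v => ?_
  rw [Finset.sum_filter, Finset.sum_filter, ← sub_eq_zero, ← Finset.sum_sub_distrib]
  have : ∀ e, (if src e = v then f e else 0) - (if dst e = v then f e else 0)
      = f e * ((if src e = v then 1 else 0) - (if dst e = v then 1 else 0)) := by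
    intro e
    by_cases h1 : src e = v <;> by_cases h2 : dst e = v <;> simp [h1, h2]
  rw [Finset.sum_congr rfl (fun e _ => this e)]

theorem nzf [Fintype V] [DecidableEq V] [Fintype E] [DecidableEq E] (src dst : E → V)
    (h : Pool.Agent.TH676.Z.FlowOn src dst ∅ ∅) : NZF src dst := by
  obtain ⟨f, h1, _, h3⟩ := h
  refine ⟨f, fun e => h3 e (Finset.notMem_empty _) (Finset.notMem_empty _), fun x => ?_⟩
  rw [← h1 x]
  unfold Pool.Agent.TH676.Z.bd
  refine Finset.sum_congr rfl fun e _ => ?_
  unfold ic
  by_cases h4 : src e = x <;> by_cases h5 : dst e = x <;> simp [h4, h5]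

theorem charPoly_pos [Fintype V] [DecidableEq V] [Fintype E] [DecidableEq E] (src dst : E → V)
    (f : E → ℤ) (h1 : IsFlow src dst f) (h2 : ∀ e, 1 ≤ |f e| ∧ |f e| ≤ 4) (q : ℕ) (hq : 5 ≤ q) :
    0 < bondCharPoly src dst q :=
  Pool.Agent.TH362.FP.chr_pos src dst f h2 h1 q hq

theorem finish [Fintype V] [DecidableEq V] [Fintype E] [DecidableEq E] (src dst : E → V)
    (hfl : Pool.Agent.TH676.Z.FlowOn src dst ∅ ∅) :
    (∃ f : E → ℤ, IsFlow src dst f ∧ ∀ e, 1 ≤ |f e| ∧ |f e| ≤ 4) ∧
      ∀ q : ℕ, 5 ≤ q → 0 < bondCharPoly src dst q := by
  obtain ⟨F, hF, hF0⟩ := int_flow src dst (nzf src dst hfl)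
  have hF1 := (isFlow_iff src dst F).mpr hF0
  exact ⟨⟨F, hF1, hF⟩, fun q hq => charPoly_pos src dst F hF1 hF q hq⟩

/-- **Sparse minors.**  If every simple minor `H` which has a `K_6` minor has fewer than `4 |V(H)|`
edges, then the bridgeless multigraph has a nowhere-zero 5-flow, and the characteristic polynomial
of its bond matroid is positive at all `q ≥ 5`. -/
theorem result :
    ∀ (V E : Type) [Fintype V] [DecidableEq V] [Fintype E] [DecidableEq E] (src dst : E → V),
      (∀ (k : ℕ) (B : Fin k → Finset V), (∀ i j, i ≠ j → Disjoint (B i) (B j)) →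
        (∀ i, Connected src dst (B i)) → HasK6Minor (minorGraph src dst B) →
        (minorGraph src dst B).edgeSet.ncard < 4 * k) →
      (∀ Y : Finset V, (boundary src dst Y).card ≠ 1) →
      (∃ f : E → ℤ, IsFlow src dst f ∧ ∀ e, 1 ≤ |f e| ∧ |f e| ≤ 4) ∧
      ∀ q : ℕ, 5 ≤ q → 0 < bondCharPoly src dst q := by
  intro V E _ _ _ _ src dst h hb
  refine finish src dst (Pool.Agent.L0h99.MN.flow_of_Sm Pool.Agent.L0h99.MN.asm_all
    Pool.Agent.Y335.FL.contract_all (Pool.Agent.L0h99.MN.sm_of fun k B hk hd hc => ?_)
    (fun Y _ => by rw [Finset.sdiff_empty]; exact hb Y))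
  by_cases h6 : HasK6Minor (minorGraph src dst B)
  · exact h k B hd hc h6
  · exact Pool.Agent.L0h99.MN.few_edges hk (minorGraph src dst B)
      (fun ⟨C, h1, h2, h3⟩ => h6 ⟨C, h2, h1, h3⟩)

/-- Bridgeless graphs without `K_6` minor. -/
theorem noK6 (V E : Type) [Fintype V] [DecidableEq V] [Fintype E] [DecidableEq E]
    (src dst : E → V)
    (h : ¬ ∃ B : Fin 6 → Finset V, (∀ i j, i ≠ j → Disjoint (B i) (B j)) ∧
      (∀ i, Connected src dst (B i)) ∧ ∀ i j, i ≠ j → Joined src dst (B i) (B j))
    (hb : ∀ Y : Finset V, (boundary src dst Y).card ≠ 1) :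
    ∃ f : E → ℤ, IsFlow src dst f ∧ ∀ e, 1 ≤ |f e| ∧ |f e| ≤ 4 := by
  refine (result V E src dst (fun k B hd hc h6 => absurd ?_ h) hb).1
  obtain ⟨C, h1, h2, h3⟩ := h6
  exact Pool.Agent.L0h99.MN.compose src dst B hd hc (minorGraph src dst B) (fun i j hij => hij.2)
    ⟨C, h2, h1, h3⟩

end Pool.Agent.Results.MP_974d84_co.SparseMinors
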