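import Mathlib
import Pool.Agent.TH497.PW.IntFlow
import Pool.Agent.TH362.FP.Pos
import Pool.Agent.Y335.FL.Main
import Pool.Agent.L0h65.TL.Cls
set_option autoImplicit false

/-!
# Nowhere-zero 5-flows in graphs of tree-length at most five (MP_974d84_co)

Let `G` be a bridgeless multigraph with a tree decomposition such that for every bag `B`

* any two vertices of `B` have distance at most five in `G`, or
* there is a vertex or an edge of `G` such that all vertices of `B` have distance at most four from
  it.

Then `G` has a nowhere-zero 5-flow, and the characteristic polynomial of its bond matroid is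
positive at all integers `q ≥ 5`.  There is no condition on the degrees, on the connectivity, on the
number of vertices, on the size of the bags or on the genus.  The tree-length (Dourisboure and
Gavoille) is the least `l` such that there is a tree decomposition all of whose bags have diameter
at most `l` in `G`; so the theorem holds for graphs of tree-length at most five and for graphs of
tree-breadth at most four.  With one bag: graphs of diameter at most five, and graphs with an edge
such that all vertices have distance at most four from it.

Proof.  The class is closed under contractions (distances do not increase).  Let `G` be a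
counterexample with as few edges as possible.  Circuits with at most eleven edges can be contracted
(library `Y335/FL`), and so can one of two edges which form a cut; hence (library `Y358/IN`) `G` has
girth at least twelve and all degrees are at least three.  A ray is an infinite walk without
immediate returns.  Let `K` be a set of vertices all of whose outer neighbours are in the bag `B`,
such that there is no ray in `K \ B`.  It is enough to show that there is no ray in `K`: then the
same is proved for larger and larger parts of the decomposition, but there are rays in `G`.

(1) Let `B` be in the ball `I` of radius four around an edge.  As the girth is at least twelve,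
there is no ray in `I`, and a vertex outside `I` has at most one neighbour in `I`.  So a ray in
`K` which leaves `I` could be replaced by a ray in `K \ I`.

(2) Let any two vertices of `B` have distance at most five.  No walk without immediate returns of
length exactly six has both ends in `B`.  For every vertex `v` in `K` and every neighbour `z` of `v`
there is a walk without immediate returns with at most three edges which starts with `v, z` and ends
in `B`: otherwise one could go on from `z` in such a direction that there is no such walk again (if
all directions have branches to `B` of length three, two of them form a walk of length six), and one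
would obtain a ray in `K \ B`.  Now let `p 0, p 1, ...` be a ray in `K` with `p 0` in `B`.  At every
`p i` there is a branch of length `e i`, one, two or three, which leaves the ray.  For `i < j` none
of the numbers `(j - i) + e i + e j`, `(j - i) + e j` (if `p i` is in `B`), `(j - i) + e i` (if `p j`
is in `B`) and `j - i` (if both are in `B`) is six.  There are no such sequences of length nine.

Tutte's 12-cage (the incidence graph of a generalised hexagon of order two) has girth twelve and
diameter six, so that (2) is false for distance six.
-/

namespace Pool.Agent.Results.MP_974d84_co.TreeLengthFive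

open Pool.Agent.TH497.PW Pool.Agent.L0h65.TL

variable {V E ι : Type}

/-- The edges with exactly one end in `X`. -/
def boundary [DecidableEq V] [Fintype E] (src dst : E → V) (X : Finset V) : Finset E :=
  Finset.univ.filter (fun e => ¬ (src e ∈ X ↔ dst e ∈ X))

/-- Kirchhoff's law. -/
def IsFlow [DecidableEq V] [Fintype E] (src dst : E → V) (f : E → ℤ) : Prop :=
  ∀ v : V, ∑ e ∈ Finset.univ.filter (fun e => src e = v), f e
    = ∑ e ∈ Finset.univ.filter (fun e => dst e = v), f e

/-- There is an edge between `x` and `y`, and `x ≠ y`. -/
def Adjacent (src dst : E → V) (x y : V) : Prop :=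
  x ≠ y ∧ ∃ e, (src e = x ∧ dst e = y) ∨ (src e = y ∧ dst e = x)

/-- The distance of `x` and `y` in the graph is at most `k`. -/
def DistLE (src dst : E → V) (k : ℕ) (x y : V) : Prop :=
  ∃ p : ℕ → V, p 0 = x ∧ p k = y ∧ ∀ i < k, p i = p (i + 1) ∨ Adjacent src dst (p i) (p (i + 1))

/-- Any two vertices of `B` have distance at most `k` in the graph. -/
def DiameterLE (src dst : E → V) (k : ℕ) (B : Finset V) : Prop :=
  ∀ x ∈ B, ∀ y ∈ B, DistLE src dst k x y

/-- There are vertices `u` and `v`, equal or adjacent, such that every vertex of `B` has distance at
most `k` from one of them. -/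
def InBall (src dst : E → V) (k : ℕ) (B : Finset V) : Prop :=
  ∃ u v, (u = v ∨ Adjacent src dst u v) ∧ ∀ x ∈ B, DistLE src dst k x u ∨ DistLE src dst k x v

/-- The sets `X i`, for the nodes `i` of the graph `T`, are a tree decomposition: `T` is a tree,
every edge has both ends in one of the sets, and a vertex in `X i` and `X j` is in `X k` for all `k`
on the path of `T` from `i` to `j`. -/
structure IsTreeDecomposition [DecidableEq V] (src dst : E → V) (T : SimpleGraph ι)
    (X : ι → Finset V) : Prop where
  tree : T.IsTree
  edge : ∀ e, ∃ i, src e ∈ X i ∧ dst e ∈ X i
  path : ∀ (i j : ι) (p : T.Walk i j), p.IsPath → ∀ k ∈ p.support, X i ∩ X j ⊆ X k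

/-- The number of the components of the graph with the vertices `V` and the edges `A`. -/
noncomputable def components (src dst : E → V) (A : Finset E) : ℕ :=
  Nat.card (SimpleGraph.fromRel
    (fun u v : V => ∃ e ∈ A, src e = u ∧ dst e = v)).ConnectedComponent

/-- The rank of `A` in the cycle matroid of the graph. -/
noncomputable def cycleRank [Fintype V] (src dst : E → V) (A : Finset E) : ℕ :=
  Fintype.card V - components src dst A

/-- The rank of `A` in the bond matroid of the graph (the dual of the cycle matroid). -/
noncomputable def bondRank [Fintype V] [Fintype E] [DecidableEq E] (src dst : E → V)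
    (A : Finset E) : ℕ :=
  A.card + cycleRank src dst Aᶜ - cycleRank src dst Finset.univ

/-- The characteristic polynomial of the bond matroid at the integer `x`. -/
noncomputable def bondCharPoly [Fintype V] [Fintype E] [DecidableEq E] (src dst : E → V)
    (x : ℤ) : ℤ :=
  ∑ A : Finset E, (-1) ^ A.card * x ^ (bondRank src dst Finset.univ - bondRank src dst A)

theorem isFlow_iff [DecidableEq V] [Fintype E] (src dst : E → V) (f : E → ℤ) :
    IsFlow src dst f ↔
      ∀ v, ∑ e, f e * ((if src e = v then 1 else 0) - (if dst e = v then 1 else 0)) = 0 := by
  unfold IsFlow
  refine forall_congr' fun v => ?_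
  rw [Finset.sum_filter, Finset.sum_filter, ← sub_eq_zero, ← Finset.sum_sub_distrib]
  have : ∀ e, (if src e = v then f e else 0) - (if dst e = v then f e else 0)
      = f e * ((if src e = v then 1 else 0) - (if dst e = v then 1 else 0)) := by
    intro e
    by_cases h1 : src e = v <;> by_cases h2 : dst e = v <;> simp [h1, h2]
  rw [Finset.sum_congr rfl (fun e _ => this e)]

theorem nzf [Fintype V] [DecidableEq V] [Fintype E] [DecidableEq E] (src dst : E → V)
    (h : Pool.Agent.TH676.Z.FlowOn src dst ∅ ∅) : NZF src dst := by
  obtain ⟨f, h1, _, h3⟩ := h
  refine ⟨f, fun e => h3 e (Finset.notMem_empty _) (Finset.notMem_empty _), fun x => ?_⟩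
  rw [← h1 x]
  unfold Pool.Agent.TH676.Z.bd
  refine Finset.sum_congr rfl fun e _ => ?_
  unfold ic
  by_cases h4 : src e = x <;> by_cases h5 : dst e = x <;> simp [h4, h5]

theorem charPoly_pos [Fintype V] [DecidableEq V] [Fintype E] [DecidableEq E] (src dst : E → V)
    (f : E → ℤ) (h1 : IsFlow src dst f) (h2 : ∀ e, 1 ≤ |f e| ∧ |f e| ≤ 4) (q : ℕ) (hq : 5 ≤ q) :
    0 < bondCharPoly src dst q :=
  Pool.Agent.TH362.FP.chr_pos src dst f h2 h1 q hq

theorem finish [Fintype V] [DecidableEq V] [Fintype E] [DecidableEq E] (src dst : E → V)
    (hfl : Pool.Agent.TH676.Z.FlowOn src dst ∅ ∅) :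
    (∃ f : E → ℤ, IsFlow src dst f ∧ ∀ e, 1 ≤ |f e| ∧ |f e| ≤ 4) ∧
      ∀ q : ℕ, 5 ≤ q → 0 < bondCharPoly src dst q := by
  obtain ⟨F, hF, hF0⟩ := int_flow src dst (nzf src dst hfl)
  have hF1 := (isFlow_iff src dst F).mpr hF0
  exact ⟨⟨F, hF1, hF⟩, fun q hq => charPoly_pos src dst F hF1 hF q hq⟩

theorem met [Fintype V] [DecidableEq V] [Fintype E] [DecidableEq E] (src dst : E → V)
    (B : Finset V) (h : DiameterLE src dst 5 B ∨ InBall src dst 4 B) : Met src dst B := h

/-- **Bridgeless graphs of tree-length at most five.**  Let `G` be a bridgeless multigraph with a
tree decomposition such that any two vertices of a bag have distance at most five in `G`, or all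
vertices of the bag have distance at most four from a vertex or an edge.  Then `G` has a nowhere-zero
5-flow, and the characteristic polynomial of its bond matroid is positive at all `q ≥ 5`. -/
theorem result :
    ∀ (V E ι : Type) [Fintype V] [DecidableEq V] [Fintype E] [DecidableEq E] [Fintype ι]
      (src dst : E → V) (T : SimpleGraph ι) (X : ι → Finset V),
      IsTreeDecomposition src dst T X →
      (∀ i, DiameterLE src dst 5 (X i) ∨ InBall src dst 4 (X i)) →
      (∀ Y : Finset V, (boundary src dst Y).card ≠ 1) →
      (∃ f : E → ℤ, IsFlow src dst f ∧ ∀ e, 1 ≤ |f e| ∧ |f e| ≤ 4) ∧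
      ∀ q : ℕ, 5 ≤ q → 0 < bondCharPoly src dst q := by
  intro V E ι _ _ _ _ _ src dst T X hX hS hb
  exact finish src dst (flow_of_HasM Pool.Agent.Y335.FL.contract_all
    (HasM.of_tree hX.tree
      (fun i j p hp k hk v hi hj => hX.path i j p hp k hk (Finset.mem_inter.mpr ⟨hi, hj⟩))
      hX.edge fun i => met src dst _ (hS i))
    (fun Y _ => by rw [Finset.sdiff_empty]; exact hb Y))

/-- One bag: bridgeless graphs of diameter at most five, and bridgeless graphs in which all vertices
have distance at most four from one vertex or from one edge. -/
theorem oneBag (V E : Type) [Fintype V] [DecidableEq V] [Fintype E] [DecidableEq E]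
    (src dst : E → V)
    (h : DiameterLE src dst 5 Finset.univ ∨ InBall src dst 4 Finset.univ)
    (hb : ∀ Y : Finset V, (boundary src dst Y).card ≠ 1) :
    ∃ f : E → ℤ, IsFlow src dst f ∧ ∀ e, 1 ≤ |f e| ∧ |f e| ≤ 4 :=
  (result V E Unit src dst ⊥ (fun _ => Finset.univ)
    ⟨SimpleGraph.IsTree.of_subsingleton, fun _ => ⟨(), Finset.mem_univ _, Finset.mem_univ _⟩,
      fun _ _ _ _ _ _ => Finset.subset_univ _⟩ (fun _ => h) hb).1

end Pool.Agent.Results.MP_974d84_co.TreeLengthFive
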